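import Pool.Agent.Helper24.AG.Max

/-! Agreement over `κ_c`: functions of the label and the point, functions of the label, the line and the time up to
the window `c`. -/

set_option autoImplicit false

namespace Pool.Agent.Helper24.AG

open Finset Filter Topology Pool.Agent.Helper69.RK Pool.Agent.Helper31.EC Pool.Agent.Helper31.EC.Sp
open Pool.Agent.Helper25.EC QS Pool.Agent.Helper38.NS Pool.Agent.Helper42.NS Pool.Agent.Helper24.T3
open Pool.Agent.Helper40.EL Pool.Agent.Helper99.EC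

noncomputable section

variable {S : Sp} {m : ℕ}

/-- a literal function of the label and of an information -/
theorem nul_of_fun {l : Lab S} (I : S.Inf) {α : ℕ → Type} {V : ∀ k, (l k).T.Ω → α k}
    (hV : ∀ᶠ k in UF, ∀ ω ω', (l k).T.μ ω ≠ 0 → (l k).T.μ ω' ≠ 0 → (l k).T.Z ω ω' → (l k).V ω ω' →
      I.1 k ((l k).p.π ω) ((l k).p.π ω') → V k ω = V k ω') :
    Nul S (fun k => h (fc (Setoid.ker (V k)) : FL (l k).T) ((l k).v ⊔ (l k).p.map (rpI I k))) := by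
  refine (Nul_zero S).of_le (Eventually.of_forall fun k => h_nonneg _ _) ?_
  filter_upwards [hV] with k hk
  refine le_of_eq (h_zero ?_)
  have h1 : (l k).v ⊔ (l k).p.map (rpI I k) = fc ((l k).V ⊓ Setoid.comap (l k).p.π (I.1 k)) := by
    rw [fc_inf]
    rfl
  rw [h1]
  exact fc_le fun ω ω' a b c d => hk ω ω' a b c d.1 d.2

/-- AGREEMENT OVER `κ_c` -/
theorem agc_kap (s : Sys S m) (c : ℝ) {l : Lab S} (hl : IsKap s c l) (e : ℝ) (he : 0 < e) {α β : ℕ → Type}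
    {VB : ∀ k, ((l.ovr e he).F k).Ω → α k} {VA : ∀ k, ((l.ovr e he).F k).Ω → β k}
    (hVB : ∀ᶠ k in UF, ∀ ω ω', (l k).T.μ ω ≠ 0 → (l k).T.μ ω' ≠ 0 → (l k).T.Z ω ω' → (l k).V ω ω' →
      (Inf.sup (s.IP 1) (s.It 1)).1 k ((l k).p.π ω) ((l k).p.π ω') → VB k ω = VB k ω')
    (hVA : ∀ᶠ k in UF, ∀ ω ω', (l k).T.μ ω ≠ 0 → (l k).T.μ ω' ≠ 0 → (l k).T.Z ω ω' → (l k).V ω ω' →
      (Inf.sup (Inf.sup (s.Ia 1) (s.Ix 1)) (s.It c)).1 k ((l k).p.π ω) ((l k).p.π ω') → VA k ω = VA k ω') :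
    AgC (S := l.ovr e he) VB VA := by
  have h1 := nul_of_fun (l := l) (Inf.sup (s.IP 1) (s.It 1)) hVB
  have h2 := nul_of_fun (l := l) (Inf.sup (Inf.sup (s.Ia 1) (s.Ix 1)) (s.It c)) hVA
  rw [← cB_eq] at h1
  rw [← cA_eq] at h2
  exact agc_max (B := cB s) hl (cA_Bd s c) (fun E => cA_im_Bd s c l.pj E) e he h1 h2

end

end Pool.Agent.Helper24.AG
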