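import Pool.Agent.Helper99.EC.FinC
import Pool.Agent.Helper24.T3.Qn

/-! Agreement over a maximal label: a function of one side which is close, on an event, to a function of the other
side is constant there over the label. -/

set_option autoImplicit false

namespace Pool.Agent.Helper24.AG

open Finset Filter Topology Pool.Agent.Helper69.RK Pool.Agent.Helper31.EC Pool.Agent.Helper31.EC.Sp
open Pool.Agent.Helper25.EC QS Pool.Agent.Helper38.NS Pool.Agent.Helper42.NS Pool.Agent.Helper24.T3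
open Pool.Agent.Helper40.EL Pool.Agent.Helper99.EC

noncomputable section

variable {S : Sp}

/-! ### events of restricted spaces -/

theorem rest_rest_mu (F : FSp) (E R : F.Ω → Prop) (h : F.pb (fun ω => E ω ∧ R ω) ≠ 0) :
    ((F.rest E).rest R).μ = (F.rest fun ω => E ω ∧ R ω).μ := by
  have hm := pb_rest F E R
  have h1 : F.pb E ≠ 0 := fun hc => h (by rw [← hm, hc, zero_mul])
  have h2 : (F.rest E).pb R ≠ 0 := fun hc => h (by rw [← hm, hc, mul_zero])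
  have e1 : ((F.rest E).rest R).μ = fun ω => ((F.rest E).pb R)⁻¹ * res (F.rest E).μ R ω :=
    (F.rest E).restμ_eq R h2
  have e2 : (F.rest E).μ = fun ω => (F.pb E)⁻¹ * res F.μ E ω := F.restμ_eq E h1
  have e3 : (F.rest fun ω => E ω ∧ R ω).μ =
      fun ω => (F.pb fun ω => E ω ∧ R ω)⁻¹ * res F.μ (fun ω => E ω ∧ R ω) ω := F.restμ_eq _ h
  rw [e1, e3, ← hm, mul_inv]
  funext ω
  have e4 : (F.rest E).μ ω = (F.pb E)⁻¹ * res F.μ E ω := congrFun e2 ω
  by_cases a : R ω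
  · have f1 : res (F.rest E).μ R ω = (F.rest E).μ ω := res_pos _ _ _ a
    rw [f1, e4]
    by_cases b : E ω
    · have f2 : res F.μ E ω = F.μ ω := res_pos _ _ _ b
      have f3 : res F.μ (fun ω => E ω ∧ R ω) ω = F.μ ω := res_pos _ _ _ ⟨b, a⟩
      rw [f2, f3]; ring
    · have f2 : res F.μ E ω = 0 := res_neg _ _ _ b
      have f3 : res F.μ (fun ω => E ω ∧ R ω) ω = 0 := res_neg _ _ _ fun hc => b hc.1
      rw [f2, f3]; ring
  · have f1 : res (F.rest E).μ R ω = 0 := res_neg _ _ _ a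
    have f3 : res F.μ (fun ω => E ω ∧ R ω) ω = 0 := res_neg _ _ _ fun hc => a hc.2
    rw [f1, f3]; ring

/-- an event of an event -/
theorem H_rest_and (E R : ∀ k, (S.F k).Ω → Prop) (hE : 0 < ul (S.pr E)) (hR : 0 < ul ((S.rest E).pr R))
    (hER : 0 < ul (S.pr fun k ω => E k ω ∧ R k ω)) (x : S.L) :
    H (restL (S := S.rest E) R hR (restL E hE x)) = H (restL (fun k ω => E k ω ∧ R k ω) hER x) := by
  induction x using cl_ind with | _ A
  show ul (((S.rest E).rest R).rt A.1 S.tr) = ul ((S.rest fun k ω => E k ω ∧ R k ω).rt A.1 S.tr)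
  apply ul_congr
  have h1 := eventually_gt_of_lt_ul (UB_pr fun k ω => E k ω ∧ R k ω) hER
  filter_upwards [h1] with k hk
  have h2 : 0 < (S.F k).pb (fun ω => E k ω ∧ R k ω) := hk
  have h3 := rest_rest_mu (S.F k) (E k) (R k) h2.ne'
  unfold rt
  congr 1
  exact congrArg (fun μ : (S.F k).Ω → ℝ => CH μ (Quotient.mk (A.1 k)) (Quotient.mk (S.tr k ⊓ (S.F k).Z))) h3

/-! ### agreement over a maximal label -/

theorem agc_max {l : Lab S} {A B : Part S} (hl : l.IsMax A B) (hA : A.Bd)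
    (hA₂ : ∀ E : ∀ k, (l.sp.F k).Ω → Prop, (A.im l.pj E).Bd) (c : ℝ) (hc : 0 < c) {α β : ℕ → Type}
    {VB : ∀ k, ((l.ovr c hc).F k).Ω → α k} {VA : ∀ k, ((l.ovr c hc).F k).Ω → β k}
    (hVB : Nul S (fun k => h (fc (Setoid.ker (VB k)) : FL (l k).T) ((l k).v ⊔ (l k).p.map (B k))))
    (hVA : Nul S (fun k => h (fc (Setoid.ker (VA k)) : FL (l k).T) ((l k).v ⊔ (l k).p.map (A k)))) :
    AgC (S := l.ovr c hc) VB VA := by
  intro E hE g g' r hr0 hr1 hg hg' hsub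
  obtain ⟨f, hf, rfl⟩ := hg
  obtain ⟨f', hf', rfl⟩ := hg'
  have h1 : QS.rest E hE (mk f - mk f') = mk (rst E (f - f')) := rfl
  rw [h1, mk_mem_Id hr1] at hsub
  obtain ⟨A1, K, hA1, hK, hh⟩ := hsub
  have hδ : ∀ k, 0 < (l.ovr c hc).dl r k := fun k => (l.ovr c hc).dl_pos r k
  obtain ⟨R, hR⟩ : ∃ R : ∀ k, ((l.ovr c hc).F k).Ω → Prop, R = fun k ω =>
    |TR.ev f k ω - TR.ev f' k ω| ≤ |K k| * (l.ovr c hc).dl r k := ⟨_, rfl⟩
  have hRt : Typ (S := (l.ovr c hc).rest E) R := by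
    refine hA1.mono ?_
    filter_upwards [hh] with k hk ω hω ha
    have h2 := hk ω hω ha
    rw [TR.ev_zero, sub_zero] at h2
    have h3 : |TR.ev f k ω - TR.ev f' k ω| ≤ K k * (l.ovr c hc).dl r k := h2
    rw [hR]
    exact h3.trans (mul_le_mul_of_nonneg_right (le_abs_self _) (hδ k).le)
  have hRp : 0 < ul (((l.ovr c hc).rest E).pr R) := ul_pr_typ_pos (S := (l.ovr c hc).rest E) R hRt
  have hE2 : 0 < ul ((l.ovr c hc).pr fun k ω => E k ω ∧ R k ω) :=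
    lt_of_lt_of_eq (mul_pos hE hRp) (ul_pr_and E R)
  have hE2' : 0 < ul (l.sp.pr fun k ω => E k ω ∧ R k ω) := hE2
  obtain ⟨ρ, hρ⟩ : ∃ ρ : ℕ → ℝ, ρ = fun k => (|K k| + 1) * (l.ovr c hc).dl r k := ⟨_, rfl⟩
  have hρ0 : ∀ k, 0 < ρ k := fun k => by
    rw [hρ]
    exact mul_pos (by positivity) (hδ k)
  obtain ⟨fB, hfB⟩ : ∃ fB : ∀ k, (l k).T.Ω → Fin 1 → ℝ, fB = fun k ω _ =>
    (⌊TR.ev f k ω / (l.ovr c hc).dl r k⌋ : ℝ) * (l.ovr c hc).dl r k := ⟨_, rfl⟩
  obtain ⟨fA, hfA⟩ : ∃ fA : ∀ k, (l k).T.Ω → Fin 1 → ℝ, fA = fun k ω _ => TR.ev f' k ω := ⟨_, rfl⟩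
  have hv : ∀ k, (l k).v = fc (l k).V := fun k => rfl
  have n1 : Nul S (fun k => h (fc (Setoid.ker (fA k)) : FL (l k).T) ((l k).v ⊔ (l k).p.map (A k))) := by
    refine hVA.of_le (Eventually.of_forall fun k => h_nonneg _ _) (Eventually.of_forall fun k => ?_)
    have h3 : (fc (Setoid.ker (fA k)) : FL (l k).T) ≤ (fc (Setoid.ker (VA k)) : FL (l k).T) ⊔ (l k).v := by
      rw [hv, ← fc_inf]
      apply fc_le
      intro ω ω' _ _ hZ hW
      rw [hfA]
      show (fun _ : Fin 1 => TR.ev f' k ω) = fun _ => TR.ev f' k ω'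
      funext _
      exact hf' k ω ω' hW.1 ⟨hW.2, hZ⟩
    refine (h_mono h3).trans ?_
    exact (h_sup_le _ _ _).trans (by rw [h_zero (le_sup_left : (l k).v ≤ _), add_zero])
  have n2 : Nul S (fun k => h (fc (Setoid.ker (fB k)) : FL (l k).T) ((l k).v ⊔ (l k).p.map (B k))) := by
    refine hVB.of_le (Eventually.of_forall fun k => h_nonneg _ _) (Eventually.of_forall fun k => ?_)
    have h3 : (fc (Setoid.ker (fB k)) : FL (l k).T) ≤ (fc (Setoid.ker (VB k)) : FL (l k).T) ⊔ (l k).v := by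
      rw [hv, ← fc_inf]
      apply fc_le
      intro ω ω' _ _ hZ hW
      have h4 := hf k ω ω' hW.1 ⟨hW.2, hZ⟩
      rw [hfB]
      show (fun _ : Fin 1 => (⌊TR.ev f k ω / (l.ovr c hc).dl r k⌋ : ℝ) * (l.ovr c hc).dl r k) =
        fun _ => (⌊TR.ev f k ω' / (l.ovr c hc).dl r k⌋ : ℝ) * (l.ovr c hc).dl r k
      rw [h4]
    refine (h_mono h3).trans ?_
    exact (h_sup_le _ _ _).trans (by rw [h_zero (le_sup_left : (l k).v ≤ _), add_zero])
  have hfl : ∀ k ω a, |fB k ω a - TR.ev f k ω| ≤ (l.ovr c hc).dl r k := by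
    intro k ω a
    rw [hfB]
    have h3 := Int.floor_le (TR.ev f k ω / (l.ovr c hc).dl r k)
    have h4 := Int.lt_floor_add_one (TR.ev f k ω / (l.ovr c hc).dl r k)
    rw [le_div_iff₀ (hδ k)] at h3
    rw [div_lt_iff₀ (hδ k)] at h4
    show |(⌊TR.ev f k ω / (l.ovr c hc).dl r k⌋ : ℝ) * (l.ovr c hc).dl r k - TR.ev f k ω| ≤ _
    rw [abs_le]
    constructor <;> linarith
  obtain ⟨r1, -⟩ := exact_label hl hA hA₂ fA fB ρ hρ0 n1 n2 (fun k ω => E k ω ∧ R k ω) (by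
    intro k ω hω a
    have h3 : |TR.ev f k ω - TR.ev f' k ω| ≤ |K k| * (l.ovr c hc).dl r k := by
      have h4 := hω.2
      rw [hR] at h4
      exact h4
    have h4 := hfl k ω a
    have h5 : fA k ω a - fB k ω a = -(TR.ev f k ω - TR.ev f' k ω) - (fB k ω a - TR.ev f k ω) := by
      rw [hfA]
      show TR.ev f' k ω - _ = _
      ring
    rw [h5, hρ]
    refine (abs_sub _ _).trans ?_
    rw [abs_neg]
    show _ ≤ (|K k| + 1) * (l.ovr c hc).dl r k
    linarith) hE2'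
  obtain ⟨X, hX⟩ : ∃ X : ∀ k, ((l.ovr c hc).F k).Ω → Fin 1 → ℤ, X = fun k ω => rdv (ρ k) (fB k ω) := ⟨_, rfl⟩
  have hXb : Bdd X := by
    refine ((TR.vec fun _ : Fin 1 => f).bdd r).of_fun (Eventually.of_forall fun k ω ω' _ _ _ h3 => ?_)
    have h4 : ⌊TR.ev f k ω / (l.ovr c hc).dl r k⌋ = ⌊TR.ev f k ω' / (l.ovr c hc).dl r k⌋ := congrFun h3 0
    rw [hX, hfB]
    show rdv (ρ k) (fun _ : Fin 1 => (⌊TR.ev f k ω / (l.ovr c hc).dl r k⌋ : ℝ) * (l.ovr c hc).dl r k) =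
      rdv (ρ k) fun _ => (⌊TR.ev f k ω' / (l.ovr c hc).dl r k⌋ : ℝ) * (l.ovr c hc).dl r k
    rw [h4]
  have hXr : Bdd (S := (l.ovr c hc).rest fun k ω => E k ω ∧ R k ω) X := rest_VB _ hXb
  have h0 : io (S := (l.ovr c hc).rest fun k ω => E k ω ∧ R k ω) X ≤ ⊥ := by
    rw [io_eq hXr, ← cl_bot, cl_le]
    have h3 : Tendsto (fun k => c⁻¹ * (h (fc (Setoid.ker fun ω => rdv (ρ k) (fB k ω)) :
        FL ((l k).T.rest (fun ω => E k ω ∧ R k ω)))
        ((l k).T.rmap (fun ω => E k ω ∧ R k ω) (l k).v) / (S.F k).n)) UF (𝓝 (c⁻¹ * 0)) := Tendsto.const_mul c⁻¹ r1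
    rw [mul_zero] at h3
    refine h3.congr fun k => ?_
    have h4 : h (fc (Setoid.ker fun ω => rdv (ρ k) (fB k ω)) : FL ((l k).T.rest (fun ω => E k ω ∧ R k ω)))
        ((l k).T.rmap (fun ω => E k ω ∧ R k ω) (l k).v) =
        ((l k).T.rest (fun ω => E k ω ∧ R k ω)).e (Setoid.ker fun ω => rdv (ρ k) (fB k ω))
          ((l k).V ⊓ ((l k).T.rest (fun ω => E k ω ∧ R k ω)).Z) := h_fc _ _
    have h5 : ((l.ovr c hc).rest fun k ω => E k ω ∧ R k ω).rt (fun k => Setoid.ker (X k))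
        ((l.ovr c hc).rest fun k ω => E k ω ∧ R k ω).tr k =
        ((l k).T.rest (fun ω => E k ω ∧ R k ω)).e (Setoid.ker (X k))
          (⊤ ⊓ ((l k).V ⊓ ((l k).T.rest (fun ω => E k ω ∧ R k ω)).Z)) / (c * (l k).T.n) := rfl
    refine Eq.trans ?_ h5.symm
    have h6 : (l k).T.n = (S.F k).n := (l k).hn
    rw [h4, top_inf_eq, h6, hX, div_mul_eq_div_div_swap, div_eq_inv_mul _ c]
    rfl
  have h7 : dg (QS.rest (fun k ω => E k ω ∧ R k ω) hE2 (mk f)) r ≤ ⊥ := by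
    refine le_trans ?_ h0
    have h8 : QS.rest (fun k ω => E k ω ∧ R k ω) hE2 (mk f) = mk (rst (fun k ω => E k ω ∧ R k ω) f) := rfl
    rw [h8, dg_mk _ hr1]
    have hKa : ((l.ovr c hc).rest fun k ω => E k ω ∧ R k ω).Sub fun k => ((K k + 1) + (K k + 1)) + 2 :=
      Sub.add (S := (l.ovr c hc).rest fun k ω => E k ω ∧ R k ω)
        (Sub.add (S := (l.ovr c hc).rest fun k ω => E k ω ∧ R k ω) (hK.add (Sp.Sub_const _ zero_le_one))
          (hK.add (Sp.Sub_const _ zero_le_one))) (Sp.Sub_const _ zero_le_two)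
    apply (TR.vec fun _ : Fin 1 => rst (fun k ω => E k ω ∧ R k ω) f).dg_le_io r hXr (fun _ _ => True) Typ_true _ hKa
    filter_upwards [hK.1] with k hk ω ω' _ _ _ _ _ h9 _
    have h10 : rdv (ρ k) (fB k ω) = rdv (ρ k) (fB k ω') := by
      rw [hX] at h9
      exact h9
    have h11 := rdv_close (hρ0 k) (fB k ω) 0
    have h12 := rdv_close (hρ0 k) (fB k ω') 0
    rw [← h10] at h12
    have h13 := hfl k ω 0
    have h14 := hfl k ω' 0
    have h15 : ρ k = (K k + 1) * (l.ovr c hc).dl r k := by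
      rw [hρ]
      show (|K k| + 1) * _ = _
      rw [abs_of_nonneg hk]
    have h16 := (abs_le.mp h11)
    have h17 := (abs_le.mp h12)
    have h18 := (abs_le.mp h13)
    have h19 := (abs_le.mp h14)
    show |TR.ev f k ω - TR.ev f k ω'| ≤ (K k + 1 + (K k + 1) + 2) * (l.ovr c hc).dl r k
    rw [h15] at h16 h17
    rw [abs_le]
    constructor <;> nlinarith [h16.1, h16.2, h17.1, h17.2, h18.1, h18.2, h19.1, h19.2]
  have h8 : H (restL (fun k ω => E k ω ∧ R k ω) hE2 (dg (mk f) r)) = 0 := by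
    rw [← QS.rest_dg, le_bot_iff.mp h7]
    exact H_bot
  have h9 : H (restL E hE (dg (mk f) r)) = 0 := by
    rw [← h8, ← H_rest_and E R hE hRp hE2]
    exact (H_restL_typ (S := (l.ovr c hc).rest E) R hRt hRp _).symm
  rw [QS.rest_dg]
  apply le_bot_iff.mp
  rw [← h_eq_zero_iff, h_bot]
  exact h9

end

end Pool.Agent.Helper24.AG
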